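import Pool.Agent.Lib.TG.Basic

/-!
# TANK G: decomposition groups of centres, separating elements, descent of monomials

`Om / K₀` is finite (Galois) with group `G`, `C` is a `G`-stable subalgebra of `Om` contained in
the valuation ring `V` (residue field `k`), `O = locV V C`.
* `dec K₀ V C`: the stabiliser of the centre (of `O`);
* `exists_sep`: `e ∈ C` fixed by the stabiliser, `e = 1` at the centre, all other conjugates of `e`
  are `0` at the centre;
* `exists_descent`: an element `m` fixed by the stabiliser, a power of which is in `K₀` up to a unit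
  of `O`, is in `K₀` up to a unit of `O`;
* `exists_semi`: `NV V P`, `P` a `G`-stable model, is `locV V C` for a `G`-stable `C`.
-/

set_option autoImplicit false

open Polynomial

namespace Pool.Agent.TGh64

open Pool.Agent.LU2 (locV le_locV locV_mono locV_le locV_inv locV_mem locV_locV)
open Pool.Agent.TG

universe u

/-! ## Values -/

section Val

variable {Om : Type u} [Field Om] {V : ValuationSubring Om}

theorem val_lt_or {x : Om} (hx : x ∈ V) : V.valuation x < 1 ∨ V.valuation x = 1 :=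
  ((V.valuation_le_one_iff x).2 hx).lt_or_eq

theorem ne_zero_of_val {x : Om} (hx : V.valuation x = 1) : x ≠ 0 := by
  rintro rfl
  rw [map_zero] at hx
  exact zero_ne_one hx

theorem val_add_lt {x y : Om} (hx : V.valuation x < 1) (hy : V.valuation y < 1) :
    V.valuation (x + y) < 1 :=
  lt_of_le_of_lt (V.valuation.map_add x y) (max_lt hx hy)

theorem val_sub_lt {x y : Om} (hx : V.valuation x < 1) (hy : V.valuation y < 1) :
    V.valuation (x - y) < 1 := by
  rw [sub_eq_add_neg]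
  exact val_add_lt hx (by rwa [Valuation.map_neg])

theorem val_mul_lt {x y : Om} (hx : V.valuation x < 1) (hy : y ∈ V) :
    V.valuation (x * y) < 1 := by
  rw [map_mul]
  exact mul_lt_one_of_lt_of_le hx ((V.valuation_le_one_iff y).2 hy)

theorem val_mul_lt' {x y : Om} (hx : x ∈ V) (hy : V.valuation y < 1) :
    V.valuation (x * y) < 1 := by
  rw [mul_comm]
  exact val_mul_lt hy hx

theorem mem_of_lt {x : Om} (hx : V.valuation x < 1) : x ∈ V :=
  (V.valuation_le_one_iff x).1 hx.le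

theorem mem_of_one {x : Om} (hx : V.valuation x = 1) : x ∈ V :=
  (V.valuation_le_one_iff x).1 hx.le

theorem val_add_one {x y : Om} (hx : V.valuation x = 1) (hy : V.valuation y < 1) :
    V.valuation (x + y) = 1 := by
  rw [Valuation.map_add_eq_of_lt_left V.valuation (by rw [hx]; exact hy), hx]

theorem sum_lt {ι : Type*} (s : Finset ι) (f : ι → Om) (hf : ∀ i ∈ s, V.valuation (f i) < 1) :
    V.valuation (∑ i ∈ s, f i) < 1 := by
  classical
  induction s using Finset.induction_on with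
  | empty => rw [Finset.sum_empty, map_zero]; exact zero_lt_one
  | insert i s hi ih =>
    rw [Finset.sum_insert hi]
    exact val_add_lt (hf i (Finset.mem_insert_self i s))
      (ih fun j hj => hf j (Finset.mem_insert_of_mem hj))

theorem prod_one {ι : Type*} (s : Finset ι) (f : ι → Om) (hf : ∀ i ∈ s, V.valuation (f i) = 1) :
    V.valuation (∏ i ∈ s, f i) = 1 := by
  rw [map_prod]
  exact Finset.prod_eq_one hf

theorem prod_mem_V {ι : Type*} (s : Finset ι) (f : ι → Om) (hf : ∀ i ∈ s, f i ∈ V) :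
    ∏ i ∈ s, f i ∈ V := by
  have h : ∏ i ∈ s, f i ∈ V.toSubring := prod_mem hf
  exact h

theorem prod_lt {ι : Type*} (s : Finset ι) (f : ι → Om) (hf : ∀ i ∈ s, f i ∈ V) {i : ι}
    (hi : i ∈ s) (hv : V.valuation (f i) < 1) : V.valuation (∏ i ∈ s, f i) < 1 := by
  classical
  rw [← Finset.mul_prod_erase s f hi]
  exact val_mul_lt hv (prod_mem_V _ _ fun j hj => hf j (Finset.mem_of_mem_erase hj))

end Val

/-! ## The stabiliser of the centre -/

section Dec

variable {k : Type u} (K₀ : Type u) {Om : Type u} [Field k] [Field K₀] [Field Om] [Algebra k Om]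
  [Algebra K₀ Om]

/-- `C` is stable under the automorphisms of `Om / K₀`. -/
def GStab (C : Subalgebra k Om) : Prop := ∀ g : Om ≃ₐ[K₀] Om, ∀ x ∈ C, g x ∈ C

/-- The stabiliser of the centre of `V` on `C`. -/
def dec (V : ValuationSubring Om) (C : Subalgebra k Om) : Subgroup (Om ≃ₐ[K₀] Om) where
  carrier := {g | ∀ a ∈ C, g a ∈ C ∧ g⁻¹ a ∈ C ∧ (V.valuation a < 1 ↔ V.valuation (g a) < 1)}
  mul_mem' := by
    intro g h hg hh a ha
    refine ⟨?_, ?_, ?_⟩
    · rw [AlgEquiv.mul_apply]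
      exact (hg _ (hh a ha).1).1
    · rw [mul_inv_rev, AlgEquiv.mul_apply]
      exact (hh _ (hg a ha).2.1).2.1
    · rw [AlgEquiv.mul_apply]
      exact (hh a ha).2.2.trans (hg _ (hh a ha).1).2.2
  one_mem' := fun a ha => ⟨ha, by rw [inv_one]; exact ha, Iff.rfl⟩
  inv_mem' := by
    intro g hg a ha
    refine ⟨(hg a ha).2.1, ?_, ?_⟩
    · rw [inv_inv]
      exact (hg a ha).1
    · have h := (hg _ (hg a ha).2.1).2.2
      rw [← AlgEquiv.mul_apply, mul_inv_cancel, AlgEquiv.one_apply] at h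
      exact h.symm

variable {K₀} {V : ValuationSubring Om} {C : Subalgebra k Om}

theorem mem_dec (hG : GStab K₀ C) {g : Om ≃ₐ[K₀] Om} :
    g ∈ dec K₀ V C ↔ ∀ a ∈ C, (V.valuation a < 1 ↔ V.valuation (g a) < 1) :=
  ⟨fun h a ha => (h a ha).2.2, fun h a ha => ⟨hG g a ha, hG g⁻¹ a ha, h a ha⟩⟩

theorem val_one_of_dec (hG : GStab K₀ C) (hC : ∀ x ∈ C, x ∈ V) {g : Om ≃ₐ[K₀] Om}
    (hg : g ∈ dec K₀ V C) {a : Om} (ha : a ∈ C) : V.valuation a = 1 ↔ V.valuation (g a) = 1 := by
  have h1 := (mem_dec hG).1 hg a ha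
  constructor
  · intro h
    refine (val_lt_or (hC _ (hG g a ha))).resolve_left fun h2 => ?_
    exact (h1.2 h2).ne h
  · intro h
    refine (val_lt_or (hC _ ha)).resolve_left fun h2 => ?_
    exact (h1.1 h2).ne h

/-- The stabiliser of the centre is the stabiliser of the local ring. -/
theorem mem_dec_iff (hG : GStab K₀ C) (hC : ∀ x ∈ C, x ∈ V) {g : Om ≃ₐ[K₀] Om} :
    g ∈ dec K₀ V C ↔ ∀ x, x ∈ locV V C ↔ g x ∈ locV V C := by
  constructor
  · have key : ∀ g ∈ dec K₀ V C, ∀ x ∈ locV V C, g x ∈ locV V C := by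
      rintro g hg x ⟨a, ha, b, hb, hvb, rfl⟩
      refine ⟨g a, hG g a ha, g b, hG g b hb, (val_one_of_dec hG hC hg hb).1 hvb, ?_⟩
      rw [map_div₀]
    intro hg x
    refine ⟨key g hg x, fun h => ?_⟩
    have h1 := key g⁻¹ ((dec K₀ V C).inv_mem hg) _ h
    rwa [← AlgEquiv.mul_apply, inv_mul_cancel, AlgEquiv.one_apply] at h1
  · intro h
    rw [mem_dec hG]
    intro a ha
    have key : ∀ b ∈ C, V.valuation b = 1 ↔ V.valuation (g b) = 1 := by
      intro b hb
      have hbV := hC b hb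
      have hgb := hC _ (hG g b hb)
      constructor
      · intro h1
        have h2 : b⁻¹ ∈ locV V C := locV_inv (le_locV _ hb) h1
        have h3 := locV_mem hC _ ((h _).1 h2)
        rw [map_inv₀] at h3
        refine le_antisymm ((V.valuation_le_one_iff _).2 hgb) ?_
        have h4 := (V.valuation_le_one_iff _).2 h3
        rw [map_inv₀] at h4
        have h5 : V.valuation (g b) ≠ 0 := by
          rw [Ne, map_eq_zero, EmbeddingLike.map_eq_zero_iff]
          exact ne_zero_of_val h1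
        exact (inv_le_one₀ (zero_lt_iff.2 h5)).1 h4
      · intro h1
        have h2 : (g b)⁻¹ ∈ locV V C := locV_inv (le_locV _ (hG g b hb)) h1
        rw [← map_inv₀] at h2
        have h3 := locV_mem hC _ ((h _).2 h2)
        refine le_antisymm ((V.valuation_le_one_iff _).2 hbV) ?_
        have h4 := (V.valuation_le_one_iff _).2 h3
        rw [map_inv₀] at h4
        have h5 : V.valuation b ≠ 0 := by
          rw [Ne, map_eq_zero, ← EmbeddingLike.map_eq_zero_iff (f := g)]
          exact ne_zero_of_val h1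
        exact (inv_le_one₀ (zero_lt_iff.2 h5)).1 h4
    have h1 := val_lt_or (hC a ha)
    have h2 := val_lt_or (hC _ (hG g a ha))
    have h3 := key a ha
    constructor
    · intro h4
      exact h2.resolve_right fun h5 => (h3.2 h5 ▸ h4).ne rfl
    · intro h4
      exact h1.resolve_right fun h5 => (h3.1 h5 ▸ h4).ne rfl

/-- One of the two implications is enough. -/
theorem mem_dec_of [FiniteDimensional K₀ Om] (hG : GStab K₀ C) {g : Om ≃ₐ[K₀] Om}
    (h : ∀ a ∈ C, V.valuation (g a) < 1 → V.valuation a < 1) : g ∈ dec K₀ V C := by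
  rw [mem_dec hG]
  intro a ha
  refine ⟨fun hv => ?_, h a ha⟩
  have key : ∀ j : ℕ, V.valuation ((g ^ (j + 1)) a) < 1 → V.valuation (g a) < 1 := by
    intro j
    induction j with
    | zero => intro h1; rwa [zero_add, pow_one] at h1
    | succ j ih =>
      intro h1
      apply ih
      refine h _ (hG _ a ha) ?_
      rw [← AlgEquiv.mul_apply, ← pow_succ']
      exact h1
  have hfin : IsOfFinOrder g := isOfFinOrder_of_finite g
  have h2 := hfin.orderOf_pos
  apply key (orderOf g - 1)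
  rw [Nat.sub_add_cancel h2, pow_orderOf_eq_one]
  exact hv

end Dec

/-! ## Separating elements -/

section Sep

variable {k K₀ Om : Type u} [Field k] [Field K₀] [Field Om] [Algebra k Om] [Algebra K₀ Om]
  [Algebra k K₀] [IsScalarTower k K₀ Om] [FiniteDimensional K₀ Om] {V : ValuationSubring Om}
  {C : Subalgebra k Om}

omit [FiniteDimensional K₀ Om] in
theorem map_algebraMap (g : Om ≃ₐ[K₀] Om) (c : k) : g (algebraMap k Om c) = algebraMap k Om c := by
  rw [IsScalarTower.algebraMap_apply k K₀ Om, AlgEquiv.commutes]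

/-- An element fixed by the stabiliser of the centre, equal to `1` at the centre, whose other
conjugates are `0` at the centre. -/
theorem exists_sep (hG : GStab K₀ C) (hC : ∀ x ∈ C, x ∈ V) (hV : ZDim k V) :
    ∃ e ∈ C, V.valuation (e - 1) < 1 ∧ (∀ g ∈ dec K₀ V C, g e = e) ∧
      ∀ g : Om ≃ₐ[K₀] Om, g ∉ dec K₀ V C → V.valuation (g e) < 1 := by
  classical
  have : Fintype (Om ≃ₐ[K₀] Om) := Fintype.ofFinite _
  set D := dec K₀ V C with hD
  have hmem : ∀ {s : Om ≃ₐ[K₀] Om}, s ∈ D → ∀ a ∈ C, (V.valuation a = 1 ↔ V.valuation (s a) = 1) :=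
    fun hs a ha => val_one_of_dec hG hC hs ha
  have h1 : ∀ τ : Om ≃ₐ[K₀] Om, τ ∉ D → ∃ a ∈ C, V.valuation (τ a) < 1 ∧ V.valuation a = 1 := by
    intro τ hτ
    by_contra hcon
    push Not at hcon
    refine hτ (mem_dec_of hG fun a ha h2 => ?_)
    exact (val_lt_or (hC a ha)).resolve_right (hcon a ha h2)
  choose! a ha1 ha2 ha3 using h1
  set b₀ : Om := ∏ τ ∈ Finset.univ.filter (fun τ : Om ≃ₐ[K₀] Om => τ ∉ D), a τ with hb₀
  have hb₀C : b₀ ∈ C := C.prod_mem fun τ hτ => ha1 τ (by simpa using hτ)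
  have hb₀val : V.valuation b₀ = 1 := prod_one _ _ fun τ hτ => ha3 τ (by simpa using hτ)
  have hb₀τ : ∀ τ : Om ≃ₐ[K₀] Om, τ ∉ D → V.valuation (τ b₀) < 1 := by
    intro τ hτ
    rw [hb₀, map_prod]
    refine prod_lt _ _ (fun τ' hτ' => ?_) (i := τ) (by simpa using hτ) (ha2 τ hτ)
    exact hC _ (hG τ _ (ha1 τ' (by simpa using hτ')))
  set b₁ : Om := ∏ s ∈ Finset.univ.filter (fun s : Om ≃ₐ[K₀] Om => s ∈ D), s b₀ with hb₁
  have hb₁C : b₁ ∈ C := C.prod_mem fun s _ => hG s _ hb₀C
  have hb₁val : V.valuation b₁ = 1 := prod_one _ _ fun s hs => by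
    have hs' : s ∈ D := by simpa using hs
    exact (hmem hs' b₀ hb₀C).1 hb₀val
  have hb₁τ : ∀ τ : Om ≃ₐ[K₀] Om, τ ∉ D → V.valuation (τ b₁) < 1 := by
    intro τ hτ
    rw [hb₁, map_prod]
    refine prod_lt _ _ (fun s _ => hC _ (hG τ _ (hG s _ hb₀C))) (i := 1) ?_ ?_
    · rw [Finset.mem_filter]
      exact ⟨Finset.mem_univ _, D.one_mem⟩
    · exact hb₀τ τ hτ
  have hb₁s : ∀ s ∈ D, s b₁ = b₁ := by
    intro s hs
    rw [hb₁, map_prod]
    refine Finset.prod_bij (fun t _ => s * t) ?_ ?_ ?_ ?_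
    · intro t ht
      simp only [Finset.mem_filter, Finset.mem_univ, true_and] at ht ⊢
      exact D.mul_mem hs ht
    · intro t _ t' _ h2
      exact mul_left_cancel h2
    · intro t ht
      simp only [Finset.mem_filter, Finset.mem_univ, true_and] at ht
      refine ⟨s⁻¹ * t, ?_, ?_⟩
      · simp only [Finset.mem_filter, Finset.mem_univ, true_and]
        exact D.mul_mem (D.inv_mem hs) ht
      · rw [mul_inv_cancel_left]
    · intro t _
      rfl
  obtain ⟨c, hc⟩ := hV.res b₁ (hC _ hb₁C)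
  have hc0 : c ≠ 0 := by
    rintro rfl
    rw [map_zero, sub_zero] at hc
    exact hc.ne hb₁val
  have hc0' : algebraMap k Om c ≠ 0 := by simpa using hc0
  refine ⟨algebraMap k Om c⁻¹ * b₁, C.mul_mem (C.algebraMap_mem _) hb₁C, ?_, ?_, ?_⟩
  · have h2 : algebraMap k Om c⁻¹ * b₁ - 1 = algebraMap k Om c⁻¹ * (b₁ - algebraMap k Om c) := by
      rw [mul_sub, ← map_mul, inv_mul_cancel₀ hc0, map_one]
    rw [h2]
    exact val_mul_lt' (hV.ov _) hc
  · intro s hs
    rw [map_mul, hb₁s s hs, map_algebraMap]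
  · intro τ hτ
    rw [map_mul, map_algebraMap]
    exact val_mul_lt' (hV.ov _) (hb₁τ τ hτ)

/-- Representatives of the cosets of a subgroup. -/
theorem exists_cosets (H : Subgroup (Om ≃ₐ[K₀] Om)) :
    ∃ (κ : Type u) (_ : Fintype κ) (_ : DecidableEq κ) (rep : κ → (Om ≃ₐ[K₀] Om)) (o : κ),
      rep o = 1 ∧ (∀ q, q ≠ o → rep q ∉ H) ∧ ∀ σ : Om ≃ₐ[K₀] Om, ∃ π : Equiv.Perm κ,
        ∀ a : Om, (∀ s ∈ H, s a = a) → ∀ q, σ (rep q a) = rep (π q) a := by
  classical
  set rep : (Om ≃ₐ[K₀] Om) ⧸ H → (Om ≃ₐ[K₀] Om) := fun q =>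
    if q = QuotientGroup.mk 1 then 1 else q.out with hrep
  have hmk : ∀ q, QuotientGroup.mk (rep q) = q := by
    intro q
    simp only [hrep]
    split_ifs with h
    · exact h.symm
    · exact Quotient.out_eq q
  refine ⟨(Om ≃ₐ[K₀] Om) ⧸ H, Fintype.ofFinite _, Classical.decEq _, rep, QuotientGroup.mk 1, ?_,
    ?_, ?_⟩
  · simp [hrep]
  · intro q hq hmem
    apply hq
    rw [← hmk q, eq_comm, QuotientGroup.eq, inv_one, one_mul]
    exact hmem
  · intro σ
    refine ⟨MulAction.toPerm σ, fun a ha q => ?_⟩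
    have hcl : ∀ σ σ' : Om ≃ₐ[K₀] Om, (QuotientGroup.mk σ : (Om ≃ₐ[K₀] Om) ⧸ H) =
        QuotientGroup.mk σ' → σ a = σ' a := by
      intro σ σ' h
      rw [QuotientGroup.eq] at h
      have h1 := ha _ h
      rw [AlgEquiv.mul_apply] at h1
      have h2 := congrArg σ h1
      rw [← AlgEquiv.mul_apply, mul_inv_cancel, AlgEquiv.one_apply] at h2
      exact h2.symm
    rw [← AlgEquiv.mul_apply]
    apply hcl
    rw [hmk]
    change _ = σ • q
    conv_rhs => rw [← hmk q]
    rfl

/-- The sum of the conjugates, over the cosets of `D`, of an element fixed by `D`. -/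
theorem exists_sum_mem [IsGalois K₀ Om] {κ : Type u} [Fintype κ] {rep : κ → (Om ≃ₐ[K₀] Om)}
    {a : Om} (h : ∀ σ : Om ≃ₐ[K₀] Om, ∃ π : Equiv.Perm κ, ∀ q, σ (rep q a) = rep (π q) a) :
    ∃ y : K₀, algebraMap K₀ Om y = ∑ q, rep q a := by
  have h1 : (∑ q, rep q a) ∈ Set.range (algebraMap K₀ Om) := by
    rw [IsGalois.mem_range_algebraMap_iff_fixed]
    intro σ
    obtain ⟨π, hπ⟩ := h σ
    rw [map_sum]
    exact Fintype.sum_equiv π _ _ fun q => hπ q
  exact h1

/-! ## Integrally closed rings -/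

omit [Field K₀] [Algebra K₀ Om] [Algebra k K₀] [IsScalarTower k K₀ Om]
  [FiniteDimensional K₀ Om] in
theorem mem_locV_of_pow (hCn : ncl C ≤ C) {z : Om} {q : ℕ} (hq : q ≠ 0)
    (hz : z ^ q ∈ locV V C) : z ∈ locV V C := by
  have h1 : z ∈ ncl (locV V C) := by
    refine mem_ncl_of_root (X ^ q - Polynomial.C (z ^ q)) (monic_X_pow_sub_C _ hq) (fun i => ?_) ?_
    · rw [coeff_sub, coeff_X_pow, coeff_C]
      refine le_ncl _ (Subalgebra.sub_mem _ ?_ ?_)
      · split_ifs
        · exact Subalgebra.one_mem _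
        · exact Subalgebra.zero_mem _
      · split_ifs
        · exact hz
        · exact Subalgebra.zero_mem _
    · rw [eval_sub, eval_pow, eval_X, eval_C, sub_self]
  have h2 := le_locV (V := V) _ h1
  rw [locV_ncl_locV] at h2
  exact locV_mono hCn h2

/-! ## Descent of monomials -/

/-- An element fixed by the stabiliser of the centre, a power of which is in `K₀` up to a unit of
`O`, is in `K₀` up to a unit of `O`. -/
theorem exists_descent [IsGalois K₀ Om] (hG : GStab K₀ C) (hC : ∀ x ∈ C, x ∈ V)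
    (hCn : ncl C ≤ C) (hV : ZDim k V) {m u : Om} {h : K₀} {q : ℕ} (hq : q ≠ 0) (hm0 : m ≠ 0)
    (hmD : ∀ g ∈ dec K₀ V C, g m = m) (hu : u ∈ locV V C) (huv : V.valuation u = 1)
    (hmq : m ^ q = u * algebraMap K₀ Om h) :
    ∃ y : K₀, algebraMap K₀ Om y / m ∈ locV V C ∧ V.valuation (algebraMap K₀ Om y / m) = 1 := by
  classical
  have : Fintype (Om ≃ₐ[K₀] Om) := Fintype.ofFinite _
  obtain ⟨e, heC, he1, heD, heτ⟩ := exists_sep hG hC hV
  obtain ⟨κ, _, _, rep, o, ho, hrep, hπ⟩ := exists_cosets (dec K₀ V C)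
  set D := dec K₀ V C with hD
  have hh0 : algebraMap K₀ Om h ≠ 0 := by
    intro h1
    rw [h1, mul_zero] at hmq
    exact hm0 ((pow_eq_zero_iff hq).1 hmq)
  have huD : ∀ g ∈ D, g u = u := by
    intro g hg
    have h1 := congrArg g hmq
    rw [map_pow, hmD g hg, map_mul, AlgEquiv.commutes, hmq] at h1
    exact (mul_right_cancel₀ hh0 h1).symm
  obtain ⟨a, ha, b, hb, hvb, hab⟩ := hu
  have hb0 : b ≠ 0 := ne_zero_of_val hvb
  set DF := Finset.univ.filter (fun s : Om ≃ₐ[K₀] Om => s ∈ D) with hDF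
  set B : Om := ∏ s ∈ DF, s b with hB
  have h1D : (1 : Om ≃ₐ[K₀] Om) ∈ DF := by
    rw [hDF, Finset.mem_filter]
    exact ⟨Finset.mem_univ _, D.one_mem⟩
  have hBC : B ∈ C := C.prod_mem fun s _ => hG s _ hb
  have hBv : V.valuation B = 1 := prod_one _ _ fun s hs => by
    have hs' : s ∈ D := by simpa [hDF] using hs
    exact (val_one_of_dec hG hC hs' hb).1 hvb
  have hBD : ∀ g ∈ D, g B = B := by
    intro s hs
    rw [hB, map_prod]
    refine Finset.prod_bij (fun t _ => s * t) ?_ ?_ ?_ ?_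
    · intro t ht
      simp only [hDF, Finset.mem_filter, Finset.mem_univ, true_and] at ht ⊢
      exact D.mul_mem hs ht
    · intro t _ t' _ h2
      exact mul_left_cancel h2
    · intro t ht
      simp only [hDF, Finset.mem_filter, Finset.mem_univ, true_and] at ht
      refine ⟨s⁻¹ * t, ?_, ?_⟩
      · simp only [hDF, Finset.mem_filter, Finset.mem_univ, true_and]
        exact D.mul_mem (D.inv_mem hs) ht
      · rw [mul_inv_cancel_left]
    · intro t _
      rfl
  have hB0 : B ≠ 0 := ne_zero_of_val hBv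
  -- the new unit
  set u' : Om := u * B ^ q with hu'
  have huBC : u * B ∈ C := by
    have h2 : u * B = a * ∏ s ∈ DF.erase 1, s b := by
      rw [hB, ← Finset.mul_prod_erase DF _ h1D, AlgEquiv.one_apply, hab, ← mul_assoc,
        div_mul_cancel₀ _ hb0]
    rw [h2]
    exact C.mul_mem ha (C.prod_mem fun s _ => hG s _ hb)
  have hu'C : u' ∈ C := by
    obtain ⟨j, rfl⟩ : ∃ j, q = j + 1 := ⟨q - 1, by omega⟩
    rw [hu', pow_succ', ← mul_assoc]
    exact C.mul_mem huBC (C.pow_mem hBC j)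
  have hu'v : V.valuation u' = 1 := by
    rw [hu', map_mul, map_pow, huv, hBv, one_pow, mul_one]
  set m' : Om := m * B with hm'
  have hm'0 : m' ≠ 0 := mul_ne_zero hm0 hB0
  have hm'D : ∀ g ∈ D, g m' = m' := fun g hg => by rw [hm', map_mul, hmD g hg, hBD g hg]
  have hm'q : m' ^ q = u' * algebraMap K₀ Om h := by
    rw [hm', mul_pow, hmq, hu']
    ring
  have hquot : ∀ g : Om ≃ₐ[K₀] Om, g m' / m' ∈ locV V C := by
    intro g
    refine mem_locV_of_pow hCn hq ?_
    have h2 : (g m' / m') ^ q = g u' / u' := by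
      rw [div_pow, hm'q, ← map_pow, hm'q, map_mul, AlgEquiv.commutes,
        mul_div_mul_right _ _ hh0]
    rw [h2]
    exact ⟨g u', hG g _ hu'C, u', hu'C, hu'v, rfl⟩
  -- the trace
  have heC' : ∀ g : Om ≃ₐ[K₀] Om, g e ∈ C := fun g => hG g _ heC
  obtain ⟨y, hy⟩ := exists_sum_mem (K₀ := K₀) (rep := rep) (a := m' * e) (fun σ => by
    obtain ⟨π, hπσ⟩ := hπ σ
    exact ⟨π, hπσ _ fun s hs => by rw [map_mul, hm'D s hs, heD s hs]⟩)
  have hym : algebraMap K₀ Om y / m' = e + ∑ q ∈ Finset.univ.erase o, (rep q m' / m') * rep q e := by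
    rw [hy, ← Finset.add_sum_erase Finset.univ _ (Finset.mem_univ o), ho, AlgEquiv.one_apply,
      add_div, mul_div_assoc, mul_comm m', div_mul_cancel₀ _ hm'0, Finset.sum_div]
    congr 1
    refine Finset.sum_congr rfl fun q _ => ?_
    rw [map_mul]
    ring
  have hym1 : algebraMap K₀ Om y / m' ∈ locV V C := by
    rw [hym]
    exact Subalgebra.add_mem _ (le_locV _ heC) (Subalgebra.sum_mem _ fun q _ =>
      Subalgebra.mul_mem _ (hquot _) (le_locV _ (heC' _)))
  have hym2 : V.valuation (algebraMap K₀ Om y / m') = 1 := by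
    have h2 : algebraMap K₀ Om y / m' = 1 + ((e - 1) +
        ∑ q ∈ Finset.univ.erase o, (rep q m' / m') * rep q e) := by
      rw [hym]
      ring
    rw [h2]
    refine val_add_one (map_one _) (val_add_lt he1 (sum_lt _ _ fun q hq => ?_))
    exact val_mul_lt' (locV_mem hC _ (hquot _)) (heτ _ (hrep q (Finset.ne_of_mem_erase hq)))
  refine ⟨y, ?_, ?_⟩
  · have h2 : algebraMap K₀ Om y / m = (algebraMap K₀ Om y / m') * B := by
      rw [hm']
      field_simp
    rw [h2]
    exact Subalgebra.mul_mem _ hym1 (le_locV _ hBC)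
  · have h2 : algebraMap K₀ Om y / m = (algebraMap K₀ Om y / m') * B := by
      rw [hm']
      field_simp
    rw [h2, map_mul, hym2, hBv, mul_one]

end Sep

/-! ## Stable models -/

section Stable

variable {k K₀ Om : Type u} [Field k] [Field K₀] [Field Om] [Algebra k Om] [Algebra K₀ Om]
  [Algebra k K₀] [IsScalarTower k K₀ Om] {V : ValuationSubring Om}

/-- The conjugate valuation ring `{x : g x ∈ V}`. -/
def conj (V : ValuationSubring Om) (g : Om ≃ₐ[K₀] Om) : ValuationSubring Om :=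
  V.comap (g : Om →+* Om)

omit [Algebra k Om] [Algebra k K₀] [IsScalarTower k K₀ Om] in
theorem mem_conj {g : Om ≃ₐ[K₀] Om} {x : Om} : x ∈ conj V g ↔ g x ∈ V := Iff.rfl

theorem conj_ov (hV : Ov k V) (g : Om ≃ₐ[K₀] Om) : Ov k (conj V g) := fun c => by
  rw [mem_conj, map_algebraMap]
  exact hV c

/-- The model is stable. -/
def PStab (K₀ : Type u) {k Om : Type u} [Field k] [Field K₀] [Field Om] [Algebra k Om]
    [Algebra K₀ Om] (P : Submodule k Om) : Prop := ∀ g : Om ≃ₐ[K₀] Om, ∀ x ∈ P, g x ∈ P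

omit [Algebra k K₀] [IsScalarTower k K₀ Om] in
theorem PStab.isMin {P : Submodule k Om} (hP : PStab K₀ P) {f : Om} {g : Om ≃ₐ[K₀] Om} :
    IsMin (conj V g) P f ↔ IsMin V P (g f) := by
  constructor
  · intro h
    refine ⟨hP g f h.mem, ?_, fun x hx => ?_⟩
    · rw [Ne, EmbeddingLike.map_eq_zero_iff]
      exact h.ne
    · have h1 := h.div (g⁻¹ x) (hP g⁻¹ x hx)
      rw [mem_conj, map_div₀, ← AlgEquiv.mul_apply, mul_inv_cancel, AlgEquiv.one_apply] at h1
      exact h1
  · intro h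
    have h0 : f = g⁻¹ (g f) := by
      rw [← AlgEquiv.mul_apply, inv_mul_cancel, AlgEquiv.one_apply]
    refine ⟨?_, ?_, fun x hx => ?_⟩
    · rw [h0]
      exact hP _ _ h.mem
    · rintro rfl
      exact h.ne (map_zero g)
    · rw [mem_conj, map_div₀]
      exact h.div _ (hP g x hx)

omit [Algebra k K₀] [IsScalarTower k K₀ Om] in
theorem PStab.mul {P Q : Submodule k Om} (hP : PStab K₀ P) (hQ : PStab K₀ Q) :
    PStab K₀ (P * Q) := by
  intro g x hx
  induction hx using Submodule.mul_induction_on' with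
  | mem_mul_mem a ha b hb =>
    rw [map_mul]
    exact Submodule.mul_mem_mul (hP g a ha) (hQ g b hb)
  | add a _ b _ ha hb =>
    rw [map_add]
    exact Submodule.add_mem _ ha hb

theorem PStab.one : PStab K₀ (1 : Submodule k Om) := by
  intro g x hx
  obtain ⟨c, rfl⟩ := Submodule.mem_one.1 hx
  rw [map_algebraMap]
  exact Submodule.mem_one.2 ⟨c, rfl⟩

theorem PStab.pow {P : Submodule k Om} (hP : PStab K₀ P) (N : ℕ) : PStab K₀ (P ^ N) := by
  induction N with
  | zero => rw [pow_zero]; exact PStab.one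
  | succ N ih => rw [pow_succ]; exact ih.mul hP

omit [Algebra k K₀] [IsScalarTower k K₀ Om] in
theorem gstab_ncl {C : Subalgebra k Om} (hC : GStab K₀ C) : GStab K₀ (ncl C) := by
  intro g x hx
  obtain ⟨p, hp, hc, h0⟩ := exists_poly_of_mem_ncl hx
  refine mem_ncl_of_root (p.map (g : Om →+* Om)) (hp.map _) (fun i => ?_) ?_
  · rw [coeff_map]
    exact le_ncl _ (hC g _ (hc i))
  · have h1 : (p.map (g : Om →+* Om)).eval ((g : Om →+* Om) x) = (g : Om →+* Om) (p.eval x) := by
      rw [eval_map, eval₂_at_apply]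
    have h2 : (p.map (g : Om →+* Om)).eval (g x) = g (p.eval x) := h1
    rw [h2, h0, map_zero]

theorem gstab_ch {P : Submodule k Om} (hP : PStab K₀ P) {F : Om} (hF : ∀ g : Om ≃ₐ[K₀] Om, g F = F) :
    GStab K₀ (ch P F) := by
  intro g x hx
  unfold ch at hx
  induction hx using Algebra.adjoin_induction with
  | mem x hx =>
    obtain ⟨a, ha, rfl⟩ := hx
    rw [map_div₀, hF g]
    exact div_mem_ch (hP g a ha)
  | algebraMap c =>
    rw [map_algebraMap]
    exact Subalgebra.algebraMap_mem _ c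
  | add x y _ _ hx hy => rw [map_add]; exact Subalgebra.add_mem _ hx hy
  | mul x y _ _ hx hy => rw [map_mul]; exact Subalgebra.mul_mem _ hx hy

/-- An element of `P` minimal at all the conjugates of `V`. -/
theorem PStab.exists_isMin_all [Infinite k] [FiniteDimensional K₀ Om] {P : Submodule k Om}
    (hP : IsModel P) (hV : Ov k V) : ∃ f, ∀ g : Om ≃ₐ[K₀] Om, IsMin (conj V g) P f := by
  classical
  have : Fintype (Om ≃ₐ[K₀] Om) := Fintype.ofFinite _
  choose f₀ hf₀ using fun g : Om ≃ₐ[K₀] Om => exists_isMin (conj_ov hV g) hP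
  let W : (Om ≃ₐ[K₀] Om) → Submodule k P := fun g =>
    { carrier := {x | (conj V g).valuation ((x : Om) / f₀ g) < 1}
      add_mem' := fun {a b} ha hb => by
        change (conj V g).valuation (((a + b : P) : Om) / f₀ g) < 1
        rw [Submodule.coe_add, add_div]
        exact val_add_lt ha hb
      zero_mem' := by
        change (conj V g).valuation (((0 : P) : Om) / f₀ g) < 1
        rw [Submodule.coe_zero, zero_div, map_zero]
        exact zero_lt_one
      smul_mem' := fun c x hx => by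
        change (conj V g).valuation (((c • x : P) : Om) / f₀ g) < 1
        rw [Submodule.coe_smul, Algebra.smul_def, mul_div_assoc]
        exact val_mul_lt' (conj_ov hV g c) hx }
  have hW : ∀ g, W g ≠ ⊤ := by
    intro g h
    have h1 : (⟨f₀ g, (hf₀ g).mem⟩ : P) ∈ W g := by
      rw [h]
      trivial
    have h2 : (conj V g).valuation (f₀ g / f₀ g) < 1 := h1
    rw [div_self (hf₀ g).ne, map_one] at h2
    exact lt_irrefl _ h2
  have h3 : (⋃ g : Om ≃ₐ[K₀] Om, (W g : Set P)) ≠ Set.univ := by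
    intro h4
    obtain ⟨g, hg⟩ := Subspace.exists_eq_top_of_iUnion_eq_univ h4
    exact hW g hg
  obtain ⟨x, hx⟩ := (Set.ne_univ_iff_exists_notMem _).1 h3
  refine ⟨x, fun g => ?_⟩
  have h5 : x ∉ W g := by
    intro h6
    apply hx
    exact Set.mem_iUnion.2 ⟨g, h6⟩
  refine (hf₀ g).of_val x.2 ?_
  refine (val_lt_or ((hf₀ g).div _ x.2)).resolve_left fun h6 => h5 h6

/-- The local ring of a stable model is the localisation of a stable integrally closed ring. -/
theorem exists_semi [Infinite k] [FiniteDimensional K₀ Om] {P : Submodule k Om}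
    (hP : IsModel P) (hPG : PStab K₀ P) (hV : Ov k V) :
    ∃ C : Subalgebra k Om, GStab K₀ C ∧ ncl C ≤ C ∧ (∀ x ∈ C, x ∈ V) ∧
      (∃ A : Subalgebra k Om, A.FG ∧ GStab K₀ A ∧ C = ncl A) ∧
      ∀ g : Om ≃ₐ[K₀] Om, NV (conj V g) P = locV (conj V g) C := by
  classical
  have : Fintype (Om ≃ₐ[K₀] Om) := Fintype.ofFinite _
  obtain ⟨f, hf⟩ := PStab.exists_isMin_all (K₀ := K₀) hP hV
  obtain ⟨N, hN⟩ : ∃ N, Fintype.card (Om ≃ₐ[K₀] Om) = N + 1 :=
    ⟨Fintype.card (Om ≃ₐ[K₀] Om) - 1, by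
      have : 0 < Fintype.card (Om ≃ₐ[K₀] Om) := Fintype.card_pos
      omega⟩
  set F : Om := ∏ g : Om ≃ₐ[K₀] Om, g f with hF
  have hFg : ∀ g : Om ≃ₐ[K₀] Om, g F = F := by
    intro g
    rw [hF, map_prod]
    exact Fintype.prod_equiv (Equiv.mulLeft g) _ _ fun s => rfl
  have hprod : ∀ (W : ValuationSubring Om), Ov k W → (∀ g : Om ≃ₐ[K₀] Om, IsMin W P (g f)) →
      IsMin W (P ^ (N + 1)) F := by
    intro W hW h
    have key : ∀ s : Finset (Om ≃ₐ[K₀] Om), IsMin W (P ^ s.card) (∏ g ∈ s, g f) := by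
      intro s
      induction s using Finset.induction_on with
      | empty =>
        rw [Finset.card_empty, Finset.prod_empty]
        have := (h 1).pow hW 0
        rwa [pow_zero ((1 : Om ≃ₐ[K₀] Om) f)] at this
      | insert g s hg ih =>
        rw [Finset.card_insert_of_notMem hg, Finset.prod_insert hg, pow_succ']
        exact (h g).mul ih
    have h1 := key Finset.univ
    rw [Finset.card_univ, hN] at h1
    exact h1
  have hmin : ∀ g : Om ≃ₐ[K₀] Om, IsMin (conj V g) (P ^ (N + 1)) F := by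
    intro g
    refine hprod _ (conj_ov hV g) fun s => ?_
    rw [hPG.isMin, ← AlgEquiv.mul_apply, ← hPG.isMin]
    exact hf (g * s)
  have hmin1 : IsMin V (P ^ (N + 1)) F := by
    have h1 := hmin 1
    rwa [(hPG.pow (N + 1)).isMin, AlgEquiv.one_apply] at h1
  have hst : GStab K₀ (ch (P ^ (N + 1)) F) := gstab_ch (hPG.pow _) hFg
  refine ⟨chN (P ^ (N + 1)) F, gstab_ncl hst, (ncl_ncl _).le, ncl_mem (ch_le hV hmin1),
    ⟨ch (P ^ (N + 1)) F, ch_fg (hP.pow _).fg, hst, rfl⟩, fun g => ?_⟩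
  rw [← NV_eq (hmin g)]
  exact NV_congr (RV_pow (conj_ov hV g) hP N).symm

end Stable

/-! ## The hypotheses (S1), (S2) of the quotient block -/

section Final

variable {k K₀ Om : Type u} [Field k] [Field K₀] [Field Om] [Algebra k Om] [Algebra K₀ Om]
  [Algebra k K₀] [IsScalarTower k K₀ Om] {V : ValuationSubring Om} {C : Subalgebra k Om}

omit [Algebra k K₀] [IsScalarTower k K₀ Om] in
theorem semi_S1 (hG : GStab K₀ C) {x : Om} (hx : x ∈ locV V C) :
    ∃ b : Om, V.valuation b = 1 ∧ (∀ g : Om ≃ₐ[K₀] Om, g • b ∈ locV V C) ∧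
      ∀ g : Om ≃ₐ[K₀] Om, g • (b * x) ∈ locV V C := by
  obtain ⟨a, ha, b, hb, hvb, rfl⟩ := hx
  refine ⟨b, hvb, fun g => le_locV _ (hG g b hb), fun g => ?_⟩
  rw [mul_div_cancel₀ _ (ne_zero_of_val hvb)]
  exact le_locV _ (hG g a ha)

theorem semi_S2 [FiniteDimensional K₀ Om] (hG : GStab K₀ C) (hC : ∀ x ∈ C, x ∈ V)
    (hV : ZDim k V) :
    ∃ e : Om, (∀ g : Om ≃ₐ[K₀] Om, g • e ∈ locV V C) ∧ V.valuation (e - 1) < 1 ∧
      ∀ g : Om ≃ₐ[K₀] Om, ¬ (∀ a, g • a ∈ locV V C ↔ a ∈ locV V C) →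
        V.valuation (g • e) < 1 := by
  obtain ⟨e, heC, he1, -, heτ⟩ := exists_sep hG hC hV
  refine ⟨e, fun g => le_locV _ (hG g e heC), he1, fun g hg => heτ g fun h => hg fun a => ?_⟩
  exact ((mem_dec_iff hG hC).1 h a).symm

end Final

end Pool.Agent.TGh64
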